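import Mathlib

namespace Pool.Agent.Results.MP_2348bc_co.Pair

open Finset

/-- restricted growth functions of length `n` (positions `0, …, n-1`) -/
def RGF {n : ℕ} (w : Fin n → ℕ) : Prop := ∀ i, 1 ≤ w i ∧ w i ≤ 1 + (Iio i).sup w

def IsCopy {ι : Type} [LinearOrder ι] {m : ℕ} (v : Fin m → ℕ) (w : ι → ℕ) (s : Fin m ↪o ι) : Prop :=
  ∀ a b, (w (s a) < w (s b) ↔ v a < v b) ∧ (w (s a) = w (s b) ↔ v a = v b)

noncomputable def copies {ι : Type} [LinearOrder ι] {m : ℕ} (v : Fin m → ℕ) (w : ι → ℕ) : ℕ :=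
  Nat.card {s : Fin m ↪o ι // IsCopy v w s}

noncomputable def R {m : ℕ} (v : Fin m → ℕ) (n k : ℕ) : ℕ :=
  Nat.card {w : Fin n → ℕ // RGF w ∧ copies v w = k}

variable {ι κ : Type} [LinearOrder ι] [LinearOrder κ]

def RG (w : ι → ℕ) : Prop := ∀ i, 1 ≤ w i ∧ ∀ x, 1 ≤ x → x < w i → ∃ j < i, w j = x

theorem rgf_iff {n : ℕ} (w : Fin n → ℕ) : RGF w ↔ RG w := by
  refine ⟨fun h i => ⟨(h i).1, fun x h1 hx => ?_⟩, fun h i => ⟨(h i).1, ?_⟩⟩
  · induction i using WellFoundedLT.induction with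
    | ind i ih =>
      have h2 := (h i).2
      obtain ⟨j, hj, hs⟩ :=
        (Finset.le_sup_iff (s := Iio i) (f := w) (a := x) (by simp; omega)).1 (by omega)
      rcases hs.eq_or_lt with e | e
      · exact ⟨j, mem_Iio.1 hj, e.symm⟩
      · obtain ⟨l, hl, e⟩ := ih j (mem_Iio.1 hj) e
        exact ⟨l, hl.trans (mem_Iio.1 hj), e⟩
  · by_cases h1 : w i ≤ 1
    · omega
    · obtain ⟨j, hj, e⟩ := (h i).2 (w i - 1) (by omega) (by omega)
      have := Finset.le_sup (f := w) (mem_Iio.2 hj)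
      omega

def T (v : Fin 4 → ℕ) (ι : Type) [LinearOrder ι] (j k : ℕ) : Type :=
  {w : ι → ℕ // RG w ∧ j + copies v w = k}

theorem copies_congr (v : Fin 4 → ℕ) (e : ι ≃o κ) (w : κ → ℕ) : copies v (w ∘ e) = copies v w :=
  Nat.card_congr ((OrderIso.orderEmbeddingCongr (OrderIso.refl _) e).subtypeEquiv fun _ => Iff.rfl)

theorem rg_congr (e : ι ≃o κ) (w : κ → ℕ) (h : RG w) : RG (w ∘ e) := fun i =>
  ⟨(h _).1, fun x h1 h2 => by
    obtain ⟨j, hj, e'⟩ := (h _).2 x h1 h2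
    exact ⟨e.symm j, e.symm_apply_lt.2 hj, by simpa using e'⟩⟩

def tCongr (v : Fin 4 → ℕ) (e : ι ≃o κ) (j k : ℕ) : T v κ j k ≃ T v ι j k where
  toFun w := ⟨w.1 ∘ e, rg_congr e _ w.2.1, by rw [copies_congr]; exact w.2.2⟩
  invFun w := ⟨w.1 ∘ e.symm, rg_congr e.symm _ w.2.1, by rw [copies_congr]; exact w.2.2⟩
  left_inv w := Subtype.ext (funext fun i => by simp)
  right_inv w := Subtype.ext (funext fun i => by simp)

def pat (p : Fin 4) : Fin 4 → ℕ := fun a => if a = p then 2 else 1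

noncomputable def d (p : Fin 4) (S : Finset ι) : ℕ := Nat.card {s : Fin 4 ↪o ι // ∀ a, s a ∈ S ↔ a = p}

theorem split [Finite ι] (p : Fin 4) (hp : p ≠ 0) (w : ι → ℕ) (hw : ∀ i, 1 ≤ w i) (S : Finset ι)
    (hS : ∀ i, i ∈ S ↔ w i ≠ 1) (u : S → ℕ) (hu : ∀ i : S, w i = u i + 1) :
    copies (pat p) w = d p S + copies (pat p) u := by
  classical
  have : Finite (Fin 4 ↪o ι) := DFunLike.finite _
  have : Finite (Fin 4 ↪o S) := DFunLike.finite _
  have h0 : pat p 0 = 1 := if_neg hp.symm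
  rw [d, copies, copies, ← Nat.card_sum]
  symm
  refine Nat.card_congr (Equiv.ofBijective (Sum.elim (fun s => ⟨s.1, fun a b => ?_⟩)
    fun s => ⟨s.1.trans (OrderEmbedding.subtype _), fun a b => ?_⟩) ⟨?_, ?_⟩)
  · have ha := (hS _).symm.trans (s.2 a)
    have hb := (hS _).symm.trans (s.2 b)
    have := hw (s.1 a)
    have := hw (s.1 b)
    by_cases e : a = b
    · subst e; simp
    unfold pat
    split_ifs <;> omega
  · have := s.2 a b
    have ha := hu (s.1 a)
    have hb := hu (s.1 b)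
    change (w (s.1 a) < w (s.1 b) ↔ _) ∧ (w (s.1 a) = w (s.1 b) ↔ _)
    omega
  · rintro (s | s) (t | t) h <;> simp only [Sum.elim_inl, Sum.elim_inr, Subtype.mk.injEq] at h
    · rw [Subtype.ext h]
    · exact absurd ((s.2 0).1 (h ▸ (t.1 0).2)) hp.symm
    · exact absurd ((t.2 0).1 (h ▸ (s.1 0).2)) hp.symm
    · congr 1
      exact Subtype.ext (DFunLike.ext _ _ fun a => Subtype.ext (DFunLike.congr_fun h a))
  · rintro ⟨s, hs⟩
    by_cases h1 : w (s 0) = 1
    · refine ⟨.inl ⟨s, fun a => ?_⟩, rfl⟩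
      have := (hs 0 a).2
      rw [hS, h0, h1, pat] at *
      split_ifs at this <;> omega
    · have hm : ∀ a, s a ∈ S := fun a => by
        have := hs 0 a
        have := hw (s 0)
        rw [hS, h0, pat] at *
        split_ifs at * <;> omega
      refine ⟨.inr ⟨OrderEmbedding.ofStrictMono (fun a => ⟨s a, hm a⟩) fun a b h => s.strictMono h,
        fun a b => ?_⟩, Subtype.ext (DFunLike.ext _ _ fun a => rfl)⟩
      have := hs a b
      have ha : w (s a) = _ := hu ⟨s a, hm a⟩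
      have hb : w (s b) = _ := hu ⟨s b, hm b⟩
      change (u ⟨s a, hm a⟩ < u ⟨s b, hm b⟩ ↔ _) ∧ (u ⟨s a, hm a⟩ = u ⟨s b, hm b⟩ ↔ _)
      omega

variable {n : ℕ}

abbrev A (n : ℕ) := {S : Finset (Fin (n + 1)) // 0 ∉ S}

def glue (S : Finset (Fin (n + 1))) (u : S → ℕ) (i : Fin (n + 1)) : ℕ :=
  if h : i ∈ S then u ⟨i, h⟩ + 1 else 1

theorem glue_ne {S : Finset (Fin (n + 1))} {u : S → ℕ} (h : RG u) (i : Fin (n + 1)) :
    i ∈ S ↔ glue S u i ≠ 1 := by
  unfold glue
  split_ifs with hi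
  · have := (h ⟨i, hi⟩).1
    simp only [hi, true_iff]; omega
  · simp [hi]

theorem glue_mem {S : Finset (Fin (n + 1))} (u : S → ℕ) (i : S) : glue S u i = u i + 1 := dif_pos i.2

theorem glue_rg (S : A n) {u : S.1 → ℕ} (h : RG u) : RG (glue S.1 u) := fun i => by
  refine ⟨by unfold glue; split_ifs <;> omega, fun x h1 h2 => ?_⟩
  have hi := (glue_ne h i).2 (by omega)
  by_cases hx : x = 1
  · refine ⟨0, Fin.pos_iff_ne_zero.2 fun e => S.2 (e ▸ hi), ?_⟩
    rw [hx]; exact dif_neg S.2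
  · have : glue S.1 u i = _ := glue_mem u ⟨i, hi⟩
    obtain ⟨j, hj, e⟩ := (h ⟨i, hi⟩).2 (x - 1) (by omega) (by omega)
    exact ⟨j, hj, by rw [glue_mem]; omega⟩

noncomputable def dec (p : Fin 4) (hp : p ≠ 0) (j k : ℕ) :
    (Σ S : A n, T (pat p) S.1 (j + d p S.1) k) ≃ T (pat p) (Fin (n + 1)) j k := by
  refine Equiv.ofBijective (fun x => ⟨glue x.1.1 x.2.1, glue_rg _ x.2.2.1, ?_⟩) ⟨?_, ?_⟩
  · rw [split p hp _ (fun i => (glue_rg _ x.2.2.1 i).1) _ (glue_ne x.2.2.1) _ (glue_mem _), ← add_assoc]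
    exact x.2.2.2
  · rintro ⟨⟨S, hS⟩, u, hu⟩ ⟨⟨S', hS'⟩, u', hu'⟩ h
    have h : glue S u = glue S' u' := congrArg Subtype.val h
    obtain rfl : S = S' := Finset.ext fun i => by rw [glue_ne hu.1, glue_ne hu'.1, h]
    obtain rfl : u = u' := funext fun i => by
      have := congrFun h i
      rw [glue_mem, glue_mem] at this
      omega
    rfl
  · rintro ⟨w, hw, hc⟩
    have h0 : w 0 = 1 := by
      by_contra h
      have := (hw 0).1
      obtain ⟨j, hj, -⟩ := (hw 0).2 1 le_rfl (by omega)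
      exact absurd hj (Fin.not_lt_zero _)
    have hm : ∀ i, i ∈ univ.filter (fun i => w i ≠ 1) ↔ w i ≠ 1 := by simp
    refine ⟨⟨⟨univ.filter fun i => w i ≠ 1, by simp [h0]⟩, fun i => w i - 1, fun i => ?_, ?_⟩, ?_⟩
    · have := (hm i).1 i.2
      have := (hw i).1
      refine ⟨by dsimp only; omega, fun x h1 h2 => ?_⟩
      obtain ⟨j, hj, e⟩ := (hw i).2 (x + 1) (by omega) (by dsimp only at h2; omega)
      exact ⟨⟨j, (hm j).2 (by omega)⟩, hj, by dsimp only; omega⟩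
    · rw [add_assoc, ← split p hp w (fun i => (hw i).1) _ hm _ fun i => by
        have := (hw i).1; omega]
      exact hc
    · refine Subtype.ext (funext fun i => ?_)
      have := (hw i).1
      simp only [glue, hm]
      split_ifs <;> omega

def σ (L i : Fin (n + 1)) : Fin (n + 1) := if i ≤ L then ⟨L - i, by omega⟩ else i

theorem σσ (L : Fin (n + 1)) : Function.Involutive (σ L) := fun i => by
  unfold σ
  split_ifs <;> simp only [Fin.ext_iff, Fin.le_def] at * <;> omega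

noncomputable def L (S : A n) : Fin (n + 1) := S.1ᶜ.sup id

theorem le_L (S : A n) {i : Fin (n + 1)} (h : i ∉ S.1) : i ≤ L S := Finset.le_sup (f := id) (mem_compl.2 h)

theorem L_not (S : A n) : L S ∉ S.1 := by
  obtain ⟨i, hi, e⟩ := Finset.exists_mem_eq_sup S.1ᶜ ⟨0, mem_compl.2 S.2⟩ id
  rw [L, e]; exact mem_compl.1 hi

noncomputable def ρ (S : A n) : A n := ⟨univ.filter fun i => σ (L S) i ∈ S.1, by simpa [σ] using L_not S⟩

theorem mem_ρ (S : A n) (i : Fin (n + 1)) : i ∈ (ρ S).1 ↔ σ (L S) i ∈ S.1 := by simp [ρ]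

theorem L_ρ (S : A n) : L (ρ S) = L S := by
  refine le_antisymm ?_ (le_L _ (by simpa [ρ, σ] using S.2))
  by_contra h
  have := L_not (ρ S)
  rw [mem_ρ, σ, if_neg h] at this
  exact h (le_L S this)

theorem ρρ : Function.Involutive (ρ (n := n)) := fun S =>
  Subtype.ext (Finset.ext fun i => by rw [mem_ρ, L_ρ, mem_ρ, σσ (L S) i])

theorem card_ρ (S : A n) : Fintype.card (ρ S).1 = Fintype.card S.1 :=
  Fintype.card_congr ((σσ (L S)).toPerm.subtypeEquiv fun i => by simp [ρ])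

theorem d_le (p : Fin 4) (hp : p ≠ 3) (S : A n) : d p S.1 ≤ d p.rev (ρ S).1 := by
  have : Finite (Fin 4 ↪o Fin (n + 1)) := DFunLike.finite _
  refine Nat.card_le_card_of_injective (fun s => ⟨OrderEmbedding.ofStrictMono
    (fun a => σ (L S) (s.1 a.rev)) fun a b h => ?_, fun a => ?_⟩) fun s t h => ?_
  · have h3 := le_L S fun h => hp ((s.2 3).1 h).symm
    have ha := (s.1.monotone (Fin.le_last a.rev)).trans h3
    have hb := s.1.strictMono (Fin.rev_lt_rev.2 h)
    change σ _ _ < σ _ _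
    rw [σ, σ, if_pos ha, if_pos (hb.le.trans ha)]
    simp only [Fin.lt_def, Fin.le_def] at *
    omega
  · simp [ρ, σσ (L S) _, s.2, Fin.rev_eq_iff]
  · refine Subtype.ext (DFunLike.ext _ _ fun a => (σσ (L S)).injective ?_)
    simpa using DFunLike.congr_fun (congrArg Subtype.val h) a.rev

theorem d_ρ (S : A n) : d 1 (ρ S).1 = d 2 S.1 :=
  le_antisymm (by simpa [ρρ S] using d_le 1 (by decide) (ρ S)) (d_le 2 (by decide) S)

theorem main (n : ℕ) : ∀ j k, Nonempty (T (pat 2) (Fin n) j k ≃ T (pat 1) (Fin n) j k) := by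
  induction n using Nat.strong_induction_on with
  | _ n ih =>
  intro j k
  cases n with
  | zero =>
    have : ∀ v (w : Fin 0 → ℕ), copies (m := 4) v w = 0 := fun v w =>
      Nat.card_eq_zero.2 (.inl ⟨fun s => (s.1 0).elim0⟩)
    exact ⟨Equiv.subtypeEquivRight fun w => by rw [this, this]⟩
  | succ n =>
    refine ⟨(dec 2 (by decide) j k).symm.trans ((Equiv.sigmaCongr ρρ.toPerm fun S => ?_).trans
      (dec 1 (by decide) j k))⟩
    have hc : Fintype.card S.1 < n + 1 := by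
      simpa using Finset.card_lt_card (s := S.1) (t := univ)
        ⟨subset_univ _, fun h => S.2 (h (mem_univ _))⟩
    refine (tCongr _ (monoEquivOfFin S.1 rfl) _ _).trans ((ih _ hc _ _).some.trans ?_)
    rw [← d_ρ]
    exact (tCongr _ (monoEquivOfFin (ρ S).1 (card_ρ S)) _ _).symm

theorem result : ∃ (m : ℕ) (v w : Fin m → ℕ), RGF v ∧ RGF w ∧ v ≠ w ∧ ∀ n k, R v n k = R w n k := by
  refine ⟨4, pat 2, pat 1, by unfold RGF; decide, by unfold RGF; decide, by decide, fun n k => ?_⟩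
  have e : ∀ v : Fin 4 → ℕ, R v n k = Nat.card (T v (Fin n) 0 k) := fun v =>
    Nat.card_congr (Equiv.subtypeEquivRight fun w => by rw [rgf_iff, zero_add])
  rw [e, e]
  exact Nat.card_congr (main n 0 k).some

end Pool.Agent.Results.MP_2348bc_co.Pair
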